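import Mathlib

namespace Ac53c1

open Finset

/-- The vector space `F_2^n`. -/
abbrev V (n : ℕ) := Fin n → ZMod 2

/-- The sign `(-1)^t` of a bit. -/
def sgn (t : ZMod 2) : ℤ := if t = 0 then 1 else -1

/-- The Walsh transform `W_F(u,v) = ∑_x (-1)^(v·F(x) + u·x)`. -/
def walsh {n : ℕ} (F : V n → V n) (u v : V n) : ℤ :=
  ∑ x : V n, sgn (v ⬝ᵥ F x + u ⬝ᵥ x)

/-- `F` is plateaued: each component `v·F` has Walsh values in `{0, lam, -lam}`. -/
def IsPlateaued {n : ℕ} (F : V n → V n) : Prop :=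
  ∀ v : V n, ∃ lam : ℤ, ∀ u : V n, walsh F u v = 0 ∨ walsh F u v = lam ∨ walsh F u v = -lam

/-- `F` is APN: `F x + F (x + a) = b` has at most two solutions for `a ≠ 0`. -/
def IsAPN {n : ℕ} (F : V n → V n) : Prop :=
  ∀ a b : V n, a ≠ 0 → (univ.filter fun x : V n => F x + F (x + a) = b).card ≤ 2

/-- The graph of `F`. -/
def graph {n : ℕ} (F : V n → V n) : Finset (V n × V n) :=
  univ.image fun x => (x, F x)

/-- CCZ-equivalence: an affine permutation maps the graph of `G` onto the graph of `F`. -/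
def CCZ {n : ℕ} (G F : V n → V n) : Prop :=
  ∃ A : (V n × V n) ≃ᵃ[ZMod 2] (V n × V n), (graph G).image A = graph F

/-- Number of 3-element subsets of `S` with sum `p`. -/
def mult {α : Type} [AddCommGroup α] [DecidableEq α] (S : Finset α) (p : α) : ℕ :=
  ((S.powersetCard 3).filter fun T => ∑ q ∈ T, q = p).card

lemma sgn_add (s t : ZMod 2) : sgn (s + t) = sgn s * sgn t := by
  revert s t; decide

lemma sgn_zero : sgn 0 = 1 := by decide

lemma sgn_cases (t : ZMod 2) : sgn t = 1 ∨ sgn t = -1 := by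
  revert t; decide

lemma add_self_V {n : ℕ} (x : V n) : x + x = 0 := by
  funext i
  simp [CharTwo.add_self_eq_zero]

lemma card_V (n : ℕ) : Fintype.card (V n) = 2 ^ n := by
  simp [V]

lemma sum_sgn_dot {n : ℕ} (x : V n) :
    ∑ u : V n, sgn (u ⬝ᵥ x) = if x = 0 then (2 : ℤ) ^ n else 0 := by
  split_ifs with h
  · subst h
    simp [sgn_zero, V]
  · obtain ⟨i, hi⟩ : ∃ i, x i ≠ 0 := by
      by_contra hc
      push Not at hc
      exact h (funext hc)
    have hxi : x i = 1 := by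
      generalize x i = t at hi
      revert t; decide
    have key : ∑ u : V n, sgn (u ⬝ᵥ x) = ∑ u : V n, sgn ((u + Pi.single i 1) ⬝ᵥ x) :=
      (Equiv.sum_comp (Equiv.addRight (Pi.single i (1 : ZMod 2) : V n))
        (fun u => sgn (u ⬝ᵥ x))).symm
    have h2 : ∀ u : V n, sgn ((u + Pi.single i 1) ⬝ᵥ x) = - sgn (u ⬝ᵥ x) := by
      intro u
      rw [add_dotProduct, single_one_dotProduct, hxi, sgn_add]
      have : sgn 1 = -1 := by decide
      rw [this]; ring
    simp only [h2, Finset.sum_neg_distrib] at key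
    linarith

lemma add_eq_zero_V {n : ℕ} {x y : V n} : x + y = 0 ↔ x = y := by
  constructor
  · intro h
    have : x + y + y = y := by rw [h, zero_add]
    rwa [add_assoc, add_self_V, add_zero] at this
  · rintro rfl; exact add_self_V _

/-- Fourier inversion. -/
lemma inversion {n : ℕ} (F : V n → V n) (v a : V n) :
    ∑ u : V n, walsh F u v * sgn (u ⬝ᵥ a) = 2 ^ n * sgn (v ⬝ᵥ F a) := by
  have : ∀ u : V n, walsh F u v * sgn (u ⬝ᵥ a)
      = ∑ x : V n, sgn (v ⬝ᵥ F x) * sgn (u ⬝ᵥ (x + a)) := by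
    intro u
    rw [walsh, Finset.sum_mul]
    refine Finset.sum_congr rfl fun x _ => ?_
    rw [dotProduct_add, sgn_add, sgn_add]; ring
  simp only [this]
  rw [Finset.sum_comm]
  simp only [← Finset.mul_sum, sum_sgn_dot, add_eq_zero_V]
  simp [mul_comm]

lemma parseval {n : ℕ} (F : V n → V n) (v : V n) :
    ∑ u : V n, walsh F u v ^ 2 = 2 ^ n * 2 ^ n := by
  have : ∀ u : V n, walsh F u v ^ 2
      = ∑ y : V n, sgn (v ⬝ᵥ F y) * (walsh F u v * sgn (u ⬝ᵥ y)) := by
    intro u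
    rw [sq]
    nth_rewrite 2 [walsh]
    rw [Finset.mul_sum]
    refine Finset.sum_congr rfl fun y _ => ?_
    rw [sgn_add]; ring
  simp only [this]
  rw [Finset.sum_comm]
  simp only [← Finset.mul_sum, inversion]
  have h1 : ∀ y : V n, sgn (v ⬝ᵥ F y) * (2 ^ n * sgn (v ⬝ᵥ F y)) = 2 ^ n := by
    intro y
    rcases sgn_cases (v ⬝ᵥ F y) with h | h <;> rw [h] <;> ring
  simp only [h1]
  simp [V]

/-- Correlation form of the square of the Walsh transform. -/
lemma square_inv {n : ℕ} (F : V n → V n) (v a : V n) :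
    ∑ u : V n, walsh F u v ^ 2 * sgn (u ⬝ᵥ a)
      = 2 ^ n * ∑ y : V n, sgn (v ⬝ᵥ (F y + F (y + a))) := by
  have : ∀ u : V n, walsh F u v ^ 2 * sgn (u ⬝ᵥ a)
      = ∑ y : V n, sgn (v ⬝ᵥ F y) * (walsh F u v * sgn (u ⬝ᵥ (y + a))) := by
    intro u
    rw [sq]
    nth_rewrite 2 [walsh]
    rw [Finset.mul_sum, Finset.sum_mul]
    refine Finset.sum_congr rfl fun y _ => ?_
    rw [dotProduct_add, sgn_add, sgn_add]; ring
  simp only [this]
  rw [Finset.sum_comm]
  simp only [← Finset.mul_sum, inversion]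
  rw [Finset.mul_sum]
  refine Finset.sum_congr rfl fun y _ => ?_
  rw [dotProduct_add, sgn_add]; ring

lemma cube_inv {n : ℕ} (F : V n → V n) (v a : V n) :
    ∑ u : V n, walsh F u v ^ 3 * sgn (u ⬝ᵥ a)
      = 2 ^ n * ∑ x : V n, ∑ y : V n, sgn (v ⬝ᵥ (F x + F y + F (x + y + a))) := by
  have : ∀ u : V n, walsh F u v ^ 3 * sgn (u ⬝ᵥ a)
      = ∑ x : V n, sgn (v ⬝ᵥ F x) * (walsh F u v ^ 2 * sgn (u ⬝ᵥ (x + a))) := by
    intro u
    rw [pow_succ]
    nth_rewrite 2 [walsh]
    rw [Finset.mul_sum, Finset.sum_mul]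
    refine Finset.sum_congr rfl fun y _ => ?_
    rw [dotProduct_add, sgn_add, sgn_add]; ring
  simp only [this]
  rw [Finset.sum_comm]
  simp only [← Finset.mul_sum, square_inv]
  rw [Finset.mul_sum]
  refine Finset.sum_congr rfl fun x _ => ?_
  rw [mul_left_comm, Finset.mul_sum]
  congr 1
  refine Finset.sum_congr rfl fun y _ => ?_
  rw [← sgn_add, ← dotProduct_add]
  congr 2
  rw [add_assoc (F x)]
  congr 3
  abel

end Ac53c1
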