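import Pool.Agent.MP_ac53c1_co.Plateau

namespace Ac53c1

open Finset

/-- Ordered count of triples of points of `S` with sum `p`. -/
def ord {n : ℕ} (S : Finset (V n × V n)) (p : V n × V n) : ℕ :=
  ((S ×ˢ S).filter fun q => q.1 + q.2 + p ∈ S).card

lemma add_self_P {n : ℕ} (x : V n × V n) : x + x = 0 :=
  Prod.ext (add_self_V _) (add_self_V _)

lemma mem_graph {n : ℕ} {F : V n → V n} {p : V n × V n} : p ∈ graph F ↔ p.2 = F p.1 := by
  simp only [graph, Finset.mem_image, Finset.mem_univ, true_and]
  constructor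
  · rintro ⟨x, rfl⟩; rfl
  · intro h; exact ⟨p.1, Prod.ext rfl h.symm⟩

lemma shift_V {n : ℕ} {x y z : V n} : x + y = z ↔ x + z = y := by
  constructor
  · rintro rfl; rw [← add_assoc, add_self_V, zero_add]
  · rintro rfl; rw [← add_assoc, add_self_V, zero_add]

lemma ord_graph {n : ℕ} (F : V n → V n) (a b : V n) : ord (graph F) (a, b) = cnt F a b := by
  symm
  refine Finset.card_bij (fun q _ => ((q.1, F q.1), (q.2, F q.2))) ?_ ?_ ?_
  · intro q hq
    have h := (Finset.mem_filter.1 hq).2
    simp only [Finset.mem_filter, Finset.mem_product, mem_graph, true_and, Prod.fst_add,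
      Prod.snd_add]
    exact shift_V.1 h
  · intro q _ q' _ h
    simp only [Prod.mk.injEq] at h
    exact Prod.ext h.1.1 h.2.1
  · intro r hr
    simp only [Finset.mem_filter, Finset.mem_product, mem_graph, Prod.fst_add,
      Prod.snd_add] at hr
    obtain ⟨⟨h1, h2⟩, h3⟩ := hr
    refine ⟨(r.1.1, r.2.1), ?_, ?_⟩
    · simp only [Finset.mem_filter, Finset.mem_univ, true_and]
      rw [h1, h2] at h3
      exact shift_V.1 h3
    · exact Prod.ext (Prod.ext rfl h1.symm) (Prod.ext rfl h2.symm)

lemma affine_three {n : ℕ} (A : (V n × V n) ≃ᵃ[ZMod 2] (V n × V n)) (x y z : V n × V n) :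
    A (x + y + z) = A x + A y + A z := by
  have h : ∀ w, A w = A.linear w + A 0 := by
    intro w
    have := A.map_vadd 0 w
    simpa using this
  rw [h (x + y + z), h x, h y, h z, map_add, map_add]
  have := add_self_P (A 0)
  linear_combination (exp := 1) -this

lemma ord_image {n : ℕ} (A : (V n × V n) ≃ᵃ[ZMod 2] (V n × V n)) (S : Finset (V n × V n))
    (p : V n × V n) : ord (S.image A) (A p) = ord S p := by
  symm
  refine Finset.card_bij (fun q _ => (A q.1, A q.2)) ?_ ?_ ?_
  · intro q hq
    simp only [Finset.mem_filter, Finset.mem_product] at hq ⊢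
    refine ⟨⟨mem_image_of_mem _ hq.1.1, mem_image_of_mem _ hq.1.2⟩, ?_⟩
    rw [← affine_three]
    exact mem_image_of_mem _ hq.2
  · intro q _ q' _ h
    simp only [Prod.mk.injEq] at h
    exact Prod.ext (A.injective h.1) (A.injective h.2)
  · intro r hr
    simp only [Finset.mem_filter, Finset.mem_product, Finset.mem_image] at hr
    obtain ⟨⟨⟨x, hx, h1⟩, ⟨y, hy, h2⟩⟩, w, hw, h3⟩ := hr
    refine ⟨(x, y), ?_, Prod.ext h1 h2⟩
    simp only [Finset.mem_filter, Finset.mem_product]
    refine ⟨⟨hx, hy⟩, ?_⟩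
    rw [← h1, ← h2, ← affine_three] at h3
    rw [← A.injective h3]; exact hw

lemma ord_eq_six {n : ℕ} (S : Finset (V n × V n)) (p : V n × V n) (hp : p ∉ S) :
    ord S p = 6 * mult S p := by
  rw [ord, mult]
  have hc : ∀ x y : V n × V n, x + y + (x + y + p) = p := by
    intro x y
    rw [← add_assoc, add_self_P, zero_add]
  rw [Finset.card_eq_sum_card_fiberwise
    (f := fun q : (V n × V n) × (V n × V n) => ({q.1, q.2, q.1 + q.2 + p} : Finset _))
    (t := (S.powersetCard 3).filter fun T => ∑ q ∈ T, q = p)]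
  · rw [Finset.sum_congr rfl (g := fun _ => 6), Finset.sum_const, smul_eq_mul, mul_comm]
    intro T hT
    obtain ⟨hT1, hT2⟩ := Finset.mem_filter.1 hT
    obtain ⟨hTS, hT3⟩ := Finset.mem_powersetCard.1 hT1
    have : T.offDiag.card = 6 := by rw [Finset.offDiag_card, hT3]
    rw [← this]
    congr 1
    ext q
    simp only [Finset.mem_filter, Finset.mem_product, Finset.mem_offDiag]
    constructor
    · rintro ⟨⟨⟨h1, h2⟩, h3⟩, h4⟩
      refine ⟨by rw [← h4]; simp, by rw [← h4]; simp, fun h5 => hp ?_⟩
      rwa [h5, add_self_P, zero_add] at h3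
    · rintro ⟨h1, h2, h3⟩
      have hcard : ((T.erase q.1).erase q.2).card = 1 := by
        rw [Finset.card_erase_of_mem (Finset.mem_erase.2 ⟨h3.symm, h2⟩),
          Finset.card_erase_of_mem h1, hT3]
      obtain ⟨z, hz⟩ := Finset.card_eq_one.1 hcard
      have hsum : q.1 + (q.2 + z) = p := by
        rw [← hT2, ← Finset.add_sum_erase T _ h1,
          ← Finset.add_sum_erase (T.erase q.1) _ (Finset.mem_erase.2 ⟨h3.symm, h2⟩), hz,
          Finset.sum_singleton]
      have hzp : q.1 + q.2 + p = z := by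
        rw [← hsum, ← add_assoc q.1, ← add_assoc, add_self_P, zero_add]
      have hzT : z ∈ (T.erase q.1).erase q.2 := by rw [hz]; exact Finset.mem_singleton_self z
      have hzT' : z ∈ T := Finset.mem_of_mem_erase (Finset.mem_of_mem_erase hzT)
      refine ⟨⟨⟨hTS h1, hTS h2⟩, hzp ▸ hTS hzT'⟩, ?_⟩
      rw [hzp, ← hz, Finset.insert_erase (Finset.mem_erase.2 ⟨h3.symm, h2⟩),
        Finset.insert_erase h1]
  · intro q hq
    simp only [Finset.coe_filter, Finset.mem_product, Set.mem_ofPred_eq] at hq
    obtain ⟨⟨h1, h2⟩, h3⟩ := hq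
    have h12 : q.1 ≠ q.2 := fun h5 => hp (by rwa [h5, add_self_P, zero_add] at h3)
    have h13 : q.1 ≠ q.1 + q.2 + p := fun h5 => hp (by
      have := hc q.1 q.2
      rw [← h5, add_right_comm, add_self_P, zero_add] at this
      exact this ▸ h2)
    have h23 : q.2 ≠ q.1 + q.2 + p := fun h5 => hp (by
      have := hc q.1 q.2
      rw [← h5, add_assoc, add_self_P, add_zero] at this
      exact this ▸ h1)
    simp only [Finset.coe_filter, Finset.mem_powersetCard, Set.mem_ofPred_eq]
    refine ⟨⟨?_, Finset.card_eq_three.2 ⟨_, _, _, h12, h13, h23, rfl⟩⟩, ?_⟩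
    · intro x hx
      simp only [Finset.mem_insert, Finset.mem_singleton] at hx
      rcases hx with rfl | rfl | rfl <;> assumption
    · rw [Finset.sum_insert (by simp [h12, h13]), Finset.sum_insert (by simp [h23]),
        Finset.sum_singleton, ← add_assoc, hc]

/-- For an APN function only the trivial solutions occur at a point of the graph. -/
lemma cnt_apn {n : ℕ} (F : V n → V n) (hF : IsAPN F) (a : V n) :
    cnt F a (F a) + 2 = 3 * 2 ^ n := by
  have h1 : cnt F a (F a) = ∑ x : V n,
      (univ.filter fun y : V n => F x + F y + F (x + y + a) = F a).card := by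
    rw [cnt, Finset.card_filter, Fintype.sum_prod_type]
    simp only [Finset.card_filter]
  have h2 : ∀ x : V n, x ≠ a →
      (univ.filter fun y : V n => F x + F y + F (x + y + a) = F a).card = 2 := by
    intro x hx
    have hxa : x + a ≠ 0 := fun h => hx (add_eq_zero_V.1 h)
    apply le_antisymm
    · refine le_trans (le_of_eq ?_) (hF (x + a) (F x + F a) hxa)
      congr 1
      ext y
      simp only [Finset.mem_filter, Finset.mem_univ, true_and]
      rw [add_assoc (F x), shift_V, show x + y + a = y + (x + a) by abel, eq_comm]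
    · refine le_trans (Finset.card_pair hx).ge (Finset.card_le_card fun y hy => ?_)
      simp only [Finset.mem_insert, Finset.mem_singleton] at hy
      simp only [Finset.mem_filter, Finset.mem_univ, true_and]
      rcases hy with rfl | rfl
      · rw [add_self_V, add_self_V, zero_add, zero_add]
      · rw [add_assoc x, add_self_V, add_zero, add_right_comm, add_self_V, zero_add]
  have h3 : (univ.filter fun y : V n => F a + F y + F (a + y + a) = F a).card = 2 ^ n := by
    rw [← card_V n, ← Finset.card_univ]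
    congr 1
    apply Finset.filter_true_of_mem
    intro y _
    rw [add_right_comm a, add_self_V, zero_add, add_assoc, add_self_V, add_zero]
  rw [h1, ← Finset.add_sum_erase univ _ (Finset.mem_univ a), h3,
    Finset.sum_congr rfl (g := fun _ => 2) fun x hx => h2 x (Finset.mem_erase.1 hx).1,
    Finset.sum_const, Finset.card_erase_of_mem (Finset.mem_univ a), Finset.card_univ, card_V,
    smul_eq_mul]
  have : 0 < 2 ^ n := by positivity
  omega

theorem main {n : ℕ} (hn : Even n) (h4 : 4 ≤ n) (F G : V n → V n) (hF : IsAPN F)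
    (hG : IsPlateaued G) (hGF : CCZ G F) (p : V n × V n) (hp : p ∉ graph F) :
    Odd (mult (graph F) p) := by
  obtain ⟨m, rfl⟩ : ∃ m, n = 2 * m := by
    obtain ⟨m, hm⟩ := hn
    exact ⟨m, by omega⟩
  obtain ⟨r, hr⟩ := cnt_mod_four (by omega) G hG
  obtain ⟨A, hA⟩ := hGF
  have key : ∀ q, (4 : ℤ) ∣ ord (graph F) q - r := by
    intro q
    obtain ⟨⟨a, b⟩, rfl⟩ := A.surjective q
    rw [← hA, ord_image, ord_graph]
    exact hr a b
  have k1 := key p
  have k2 := key (0, F 0)
  rw [ord_eq_six _ _ hp] at k1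
  rw [ord_graph] at k2
  have k3 := cnt_apn F hF 0
  obtain ⟨m', rfl⟩ : ∃ m', m = m' + 1 := ⟨m - 1, by omega⟩
  have k4 : 2 ^ (2 * (m' + 1)) = 4 * 2 ^ (2 * m') := by ring
  rw [k4] at k3
  rw [Nat.odd_iff]
  push_cast at k1
  omega

end Ac53c1
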