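import Pool.Agent.MP_ac53c1_co.Switch

/-! Exclude multiplicities at the fixed points of an automorphism of order two. -/

namespace Ac53c1

open Finset

variable {n : ℕ}

lemma even_invol {α : Type} [DecidableEq α] (S : Finset α) (f : α → α) (h1 : ∀ x ∈ S, f x ∈ S)
    (h2 : ∀ x, f (f x) = x) : Even (S.filter fun x => ¬ f x = x).card := by
  rw [← ZMod.natCast_eq_zero_iff_even, card_eq_sum_ones]
  push_cast
  refine sum_involution (fun x _ => f x) (fun _ _ => by decide) (fun x hx _ => (mem_filter.1 hx).2)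
    (fun x hx => mem_filter.2 ⟨h1 x (mem_filter.1 hx).1, fun c => (mem_filter.1 hx).2 ?_⟩)
    (fun x _ => h2 x)
  rw [h2] at c
  exact c.symm

/-- The vectors `v` with `L v = v + u`. -/
def fib (L : V n →ₗ[ZMod 2] V n) (u : V n) : Finset (V n) := univ.filter fun v => L v = v + u

lemma mem_fib {L : V n →ₗ[ZMod 2] V n} {u v : V n} : v ∈ fib L u ↔ L v = v + u := by
  simp [fib]

lemma card_fib (L : V n →ₗ[ZMod 2] V n) {u w : V n} (hw : L w = w + u) :
    (fib L u).card = (fib L 0).card := by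
  have h2 := two_V (n := n)
  refine card_nbij' (fun v => v + w) (fun v => v + w) (fun v hv => ?_) (fun v hv => ?_)
    (fun v _ => by linear_combination w * h2) (fun v _ => by linear_combination w * h2)
  · rw [mem_coe, mem_fib] at hv ⊢
    rw [map_add, hv, hw]
    linear_combination u * h2
  · rw [mem_coe, mem_fib] at hv ⊢
    rw [map_add, hv, hw]
    ring

section
variable {F : V n → V n} {L B : V n →ₗ[ZMod 2] V n} {a : V n}

lemma img_sub (hD : ∀ u v, d2 F (L u) (L v) a = B (d2 F u v a)) {u : V n} (hu : L u = u) :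
    (fib L 0 ∪ fib L u).image (fun v => d2 F u v a) ⊆ fib B 0 := by
  intro z hz
  obtain ⟨v, hv, rfl⟩ := mem_image.1 hz
  rw [mem_fib, ← hD, hu, add_zero]
  rcases mem_union.1 hv with h | h
  · rw [mem_fib.1 h, add_zero]
  · rw [mem_fib.1 h, d2_shift]

lemma img_card (hF : IsAPN F) {u : V n} (h0 : u ≠ 0) (S : Finset (V n)) :
    S.card ≤ 2 * (S.image fun v => d2 F u v a).card := by
  refine card_le_mul_card_image S 2 fun z _ => ?_
  refine le_trans (card_le_card (t := sol F a u z) fun v hv => mem_sol.2 (mem_filter.1 hv).2) ?_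
  rw [card_sol hF a h0]
  rcases ind_cases F a u z with h | h <;> omega

lemma img_ge (hF : IsAPN F) {u w : V n} (h0 : u ≠ 0) (hw : L w = w + u) :
    (fib L 0).card ≤ ((fib L 0 ∪ fib L u).image fun v => d2 F u v a).card := by
  have h := img_card (a := a) hF h0 (fib L 0 ∪ fib L u)
  rw [card_union_of_disjoint, card_fib L hw] at h
  · omega
  · rw [disjoint_left]
    intro v h1 h2
    rw [mem_fib] at h1 h2
    exact h0 (add_left_cancel (h2.symm.trans h1))

end

lemma invol_key {m : ℕ} (hm : 2 ≤ m) {F : V (2 * m) → V (2 * m)} (hF : IsAPN F)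
    {L B : V (2 * m) →ₗ[ZMod 2] V (2 * m)} {a : V (2 * m)} (hL : ∀ u, L (L u) = u)
    (hD : ∀ u v, d2 F (L u) (L v) a = B (d2 F u v a)) (hB : (fib B 0).card ≤ 2 ^ m) :
    (fib L 0).card = 2 ^ m ∧ ∀ u ∈ fib L 0, u ≠ 0 → ∀ c, B c = c → ∃ v, d2 F u v a = c := by
  have h2 := two_V (n := 2 * m)
  have hq : (univ : Finset (V (2 * m))).card = 2 ^ m * 2 ^ m := by
    rw [card_univ, card_V, two_mul, pow_add]
  have hQ : 4 ≤ 2 ^ m := le_trans (by norm_num) (Nat.pow_le_pow_right (by norm_num) hm)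
  have fix : ∀ w, L (L w + w) = L w + w := fun w => by rw [map_add, hL, add_comm]
  have eq : ∀ w, L w = w + (L w + w) := fun w => by linear_combination -w * h2
  have hK : (fib L 0).card ≤ 2 ^ m := by
    by_cases h : ∃ w, L w + w ≠ 0
    · obtain ⟨w, hw⟩ := h
      exact (img_ge hF hw (eq w)).trans ((card_le_card (img_sub hD (fix w))).trans hB)
    · push Not at h
      exfalso
      obtain ⟨u, -, hu⟩ := exists_mem_ne (s := (univ : Finset (V (2 * m))))
        (by rw [hq]; nlinarith) 0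
      have h3 := img_card (a := a) hF hu (fib L 0 ∪ fib L u)
      have h4 := (card_le_card (img_sub hD (add_eq_zero_V.1 (h u)))).trans hB
      have h5 : (univ : Finset (V (2 * m))).card ≤ (fib L 0 ∪ fib L u).card :=
        card_le_card fun v _ => mem_union_left _ (mem_fib.2 (by rw [eq v, h v]))
      rw [hq] at h5
      nlinarith
  have hI : (univ.image fun w => L w + w) ⊆ fib L 0 := by
    intro u hu
    obtain ⟨w, -, rfl⟩ := mem_image.1 hu
    rw [mem_fib, fix, add_zero]
  have h6 : (univ : Finset (V (2 * m))).card ≤ 2 ^ m * (univ.image fun w => L w + w).card := by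
    refine card_le_mul_card_image _ _ fun u hu => ?_
    obtain ⟨w, -, rfl⟩ := mem_image.1 hu
    refine le_trans (card_le_card (t := fib L (L w + w)) fun v hv => mem_fib.2 ?_) ?_
    · rw [← (mem_filter.1 hv).2]
      exact eq v
    · rw [card_fib L (eq w)]
      exact hK
  rw [hq] at h6
  have h7 := Nat.le_of_mul_le_mul_left h6 (by positivity)
  have h8 := eq_of_subset_of_card_le hI (hK.trans h7)
  have h9 : (fib L 0).card = 2 ^ m := le_antisymm hK (by rw [← h8]; exact h7)
  refine ⟨h9, fun u hu h0 c hc => ?_⟩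
  rw [← h8] at hu
  obtain ⟨w, -, rfl⟩ := mem_image.1 hu
  have e := eq_of_subset_of_card_le (img_sub hD (fix w))
    (hB.trans (h9.ge.trans (img_ge hF h0 (eq w))))
  have hc' : c ∈ fib B 0 := mem_fib.2 (by rw [hc, add_zero])
  rw [← e] at hc'
  obtain ⟨v, -, hv⟩ := mem_image.1 hc'
  exact ⟨v, hv⟩

lemma invol_odd {m : ℕ} (hm : 2 ≤ m) {F : V (2 * m) → V (2 * m)} (hF : IsAPN F)
    {L B : V (2 * m) →ₗ[ZMod 2] V (2 * m)} {a c : V (2 * m)} (hL : ∀ u, L (L u) = u)
    (hD : ∀ u v, d2 F (L u) (L v) a = B (d2 F u v a)) (hB : (fib B 0).card ≤ 2 ^ m)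
    (hc : B c = c) : Odd (∑ u ∈ univ.erase 0, ind F a u c) := by
  obtain ⟨k1, k2⟩ := invol_key hm hF hL hD hB
  obtain ⟨X, hX⟩ : ∃ X, X = (univ.erase 0).filter fun u => (sol F a u c).Nonempty := ⟨_, rfl⟩
  have mem : ∀ u, u ∈ X ↔ u ≠ 0 ∧ ∃ v, d2 F u v a = c := fun u => by
    simp [hX, Finset.Nonempty, mem_sol]
  have e1 : ∑ u ∈ univ.erase 0, ind F a u c = X.card := by
    rw [hX, card_filter]
    rfl
  have e2 := even_invol X L (fun u hu => by
    obtain ⟨h0, v, hv⟩ := (mem u).1 hu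
    refine (mem _).2 ⟨fun h => h0 ?_, L v, by rw [hD, hv, hc]⟩
    rw [← hL u, h, map_zero]) hL
  have e3 : (X.filter fun u => L u = u) = (fib L 0).erase 0 := by
    ext u
    rw [mem_filter, mem, mem_erase, mem_fib, add_zero]
    exact ⟨fun h => ⟨h.1.1, h.2⟩, fun h =>
      ⟨⟨h.1, k2 u (mem_fib.2 (by rw [h.2, add_zero])) h.1 c hc⟩, h.2⟩⟩
  have e4 := card_filter_add_card_filter_not (s := X) fun u => L u = u
  rw [e3, card_erase_of_mem (mem_fib.2 (by simp)), k1] at e4
  have e5 : Even (2 ^ m) := (Nat.even_pow.2 ⟨even_two, by omega⟩)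
  have e6 : 0 < 2 ^ m := by positivity
  rw [e1, Nat.odd_iff]
  rw [Nat.even_iff] at e2 e5
  omega

theorem main_invol {m : ℕ} (hm : 2 ≤ m) (F : V (2 * m) → V (2 * m)) (hF : IsAPN F)
    (A C : V (2 * m) →ᵃ[ZMod 2] V (2 * m)) (B : V (2 * m) →ₗ[ZMod 2] V (2 * m))
    (hA : ∀ x, A (A x) = x) (hE : ∀ x, F (A x) = B (F x) + C x)
    (hB : (univ.filter fun y => B y = y).card ≤ 2 ^ m) (a b : V (2 * m))
    (hp : (a, b) ∉ graph F) (ha : A a = a) (hb : B b + C a = b) :
    Odd (mult (graph F) (a, b)) := by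
  have h2 := two_V (n := 2 * m)
  have tr : ∀ (T : V (2 * m) →ᵃ[ZMod 2] V (2 * m)) u, T (a + u) = T a + T.linear u := fun T u => by
    have := T.map_vadd a u
    rw [vadd_eq_add, vadd_eq_add, add_comm u, add_comm (T.linear u)] at this
    exact this
  have hL : ∀ u, A.linear (A.linear u) = u := fun u => by
    have := hA (a + u)
    rw [tr, ha, tr, ha] at this
    exact add_left_cancel this
  have hG : ∀ u, F (a + A.linear u) = B (F (a + u)) + (C a + C.linear u) := fun u => by
    rw [← tr, ← hE, tr, ha]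
  have h0 : F a = B (F a) + C a := by rw [← hE, ha]
  have hD : ∀ u v, d2 F (A.linear u) (A.linear v) a = B (d2 F u v a) := fun u v => by
    rw [d2, d2, add_assoc a, add_assoc a, ← map_add, hG, hG, hG, map_add, map_add, map_add, map_add]
    linear_combination h0 + (2 * C a + C.linear u + C.linear v) * h2
  have hne : b ≠ F a := fun h => hp (mem_graph.2 h)
  have h6 := ord_eq_six _ _ hp
  rw [ord_graph, cnt_eq hF a b hne] at h6
  have ho := invol_odd (c := b + F a) hm hF hL hD (by simpa only [fib, add_zero] using hB) (by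
    rw [map_add]
    linear_combination hb - h0 - C a * h2)
  rw [Nat.odd_iff] at ho ⊢
  omega

end Ac53c1
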