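import Pool.Agent.MP_ac53c1_co.Basic

namespace Ac53c1

open Finset

/-- Amplitude of a plateaued component in even dimension. -/
lemma amplitude {m : ℕ} (F : V (2 * m) → V (2 * m)) (v : V (2 * m)) (lam : ℤ)
    (h : ∀ u, walsh F u v = 0 ∨ walsh F u v = lam ∨ walsh F u v = -lam) :
    ∃ mu w : ℤ, (∀ u, walsh F u v ^ 3 = 2 ^ (2 * m) * mu * walsh F u v) ∧
      walsh F 0 v = 2 ^ m * w ∧ (4 : ℤ) ∣ mu - w ^ 2 := by
  classical
  set s := univ.filter fun u : V (2 * m) => walsh F u v ≠ 0 with hs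
  have hsq : ∀ u ∈ s, walsh F u v ^ 2 = lam ^ 2 := by
    intro u hu
    have hu' : walsh F u v ≠ 0 := (Finset.mem_filter.1 hu).2
    rcases h u with h1 | h1 | h1
    · exact absurd h1 hu'
    · rw [h1]
    · rw [h1]; ring
  have hP : (s.card : ℤ) * lam ^ 2 = 2 ^ (2 * m) * 2 ^ (2 * m) := by
    rw [← parseval F v, ← Finset.sum_filter_add_sum_filter_not univ
      (fun u : V (2 * m) => walsh F u v ≠ 0)]
    have h0 : ∑ u ∈ univ.filter (fun u : V (2 * m) => ¬ walsh F u v ≠ 0), walsh F u v ^ 2 = 0 := by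
      refine Finset.sum_eq_zero fun u hu => ?_
      have := (Finset.mem_filter.1 hu).2
      push Not at this
      rw [this]; ring
    rw [h0, add_zero, Finset.sum_congr rfl hsq]
    simp
  have hPn : s.card * lam.natAbs ^ 2 = 2 ^ (2 * m) * 2 ^ (2 * m) := by
    have : ((s.card * lam.natAbs ^ 2 : ℕ) : ℤ) = ((2 ^ (2 * m) * 2 ^ (2 * m) : ℕ) : ℤ) := by
      push_cast
      rw [sq_abs]; exact hP
    exact_mod_cast this
  have hdvd : lam.natAbs ∣ 2 ^ (2 * m + 2 * m) := by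
    rw [pow_add, ← hPn]
    exact Dvd.dvd.mul_left (Dvd.intro _ (sq _).symm) _
  obtain ⟨j, -, hj⟩ := (Nat.dvd_prime_pow Nat.prime_two).1 hdvd
  have hcard : s.card ≤ 2 ^ (2 * m) := by
    rw [← card_V (2 * m)]; exact Finset.card_le_univ _
  have hjm : m ≤ j := by
    by_contra hlt
    push Not at hlt
    have h1 : lam.natAbs ^ 2 < 2 ^ (2 * m) := by
      rw [hj, ← pow_mul]
      exact Nat.pow_lt_pow_right (by norm_num) (by omega)
    have h2 : s.card * lam.natAbs ^ 2 < 2 ^ (2 * m) * 2 ^ (2 * m) :=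
      Nat.mul_lt_mul_of_le_of_lt hcard h1 (by positivity)
    omega
  obtain ⟨i, rfl⟩ := Nat.exists_eq_add_of_le hjm
  have hlam2 : lam ^ 2 = 2 ^ (2 * m) * 4 ^ i := by
    rw [← sq_abs, Int.abs_eq_natAbs, hj]
    push_cast
    rw [show (4 : ℤ) = 2 ^ 2 by norm_num, ← pow_mul, ← pow_mul, ← pow_add]
    congr 1; ring
  have hlam : lam = 2 ^ m * 2 ^ i ∨ lam = 2 ^ m * (-2 ^ i) := by
    have := Int.natAbs_eq lam
    rw [hj] at this
    push_cast at this
    rcases this with h1 | h1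
    · left; rw [h1, pow_add]
    · right; rw [h1, pow_add]; ring
  have h4 : ((2 : ℤ) ^ i) ^ 2 = 4 ^ i := by
    rw [← pow_mul, mul_comm, pow_mul]; norm_num
  have hcube : ∀ u, walsh F u v ^ 3 = 2 ^ (2 * m) * 4 ^ i * walsh F u v := by
    intro u
    rw [← hlam2]
    rcases h u with h1 | h1 | h1 <;> rw [h1] <;> ring
  rcases h 0 with h0 | h0 | h0
  · -- zero Walsh value at the origin: not bent
    refine ⟨4 ^ i, 0, hcube, by rw [h0]; ring, ?_⟩
    rcases Nat.eq_zero_or_pos i with hi | hi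
    · exfalso
      subst hi
      have hc : s.card = 2 ^ (2 * m) := by
        have e : lam.natAbs ^ 2 = 2 ^ (2 * m) := by
          rw [hj, ← pow_mul]; congr 1; ring
        rw [e] at hPn
        exact Nat.eq_of_mul_eq_mul_right (by positivity) hPn
      have hu : s = univ := by
        apply Finset.eq_univ_of_card
        rw [hc, card_V]
      have : (0 : V (2 * m)) ∈ s := by rw [hu]; exact Finset.mem_univ _
      exact (Finset.mem_filter.1 this).2 h0
    · obtain ⟨k, rfl⟩ := Nat.exists_eq_add_of_le hi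
      exact ⟨4 ^ k, by ring⟩
  · rcases hlam with h1 | h1
    · exact ⟨4 ^ i, 2 ^ i, hcube, by rw [h0, h1], by rw [h4]; simp⟩
    · exact ⟨4 ^ i, -2 ^ i, hcube, by rw [h0, h1], by rw [neg_sq, h4]; simp⟩
  · rcases hlam with h1 | h1
    · exact ⟨4 ^ i, -2 ^ i, hcube, by rw [h0, h1]; ring, by rw [neg_sq, h4]; simp⟩
    · exact ⟨4 ^ i, 2 ^ i, hcube, by rw [h0, h1]; ring, by rw [h4]; simp⟩

/-- Number of ordered solutions of `F x + F y + F (x + y + a) = b`. -/
def cnt {n : ℕ} (F : V n → V n) (a b : V n) : ℕ :=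
  (univ.filter fun q : V n × V n => F q.1 + F q.2 + F (q.1 + q.2 + a) = b).card

lemma cnt_fourier {n : ℕ} (F : V n → V n) (a b : V n) :
    (2 : ℤ) ^ n * cnt F a b = ∑ v : V n,
      (∑ x : V n, ∑ y : V n, sgn (v ⬝ᵥ (F x + F y + F (x + y + a)))) * sgn (v ⬝ᵥ b) := by
  have h1 : ∀ v : V n,
      (∑ x : V n, ∑ y : V n, sgn (v ⬝ᵥ (F x + F y + F (x + y + a)))) * sgn (v ⬝ᵥ b)
      = ∑ q : V n × V n, sgn (v ⬝ᵥ (F q.1 + F q.2 + F (q.1 + q.2 + a) + b)) := by
    intro v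
    rw [Fintype.sum_prod_type, Finset.sum_mul]
    refine Finset.sum_congr rfl fun x _ => ?_
    rw [Finset.sum_mul]
    refine Finset.sum_congr rfl fun y _ => ?_
    rw [dotProduct_add v _ b, sgn_add]
  simp only [h1]
  rw [Finset.sum_comm]
  simp only [sum_sgn_dot, add_eq_zero_V]
  rw [cnt, Finset.card_filter]
  push_cast
  rw [Finset.mul_sum]
  refine Finset.sum_congr rfl fun q _ => ?_
  split_ifs <;> simp

lemma walsh_zero_sum {n : ℕ} (F : V n → V n) (c : V n) :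
    ∃ k : ℤ, ∑ v : V n, walsh F 0 v * sgn (v ⬝ᵥ c) = 2 ^ n * k := by
  have h1 : ∀ v : V n, walsh F 0 v * sgn (v ⬝ᵥ c) = ∑ x : V n, sgn (v ⬝ᵥ (F x + c)) := by
    intro v
    rw [walsh, Finset.sum_mul]
    refine Finset.sum_congr rfl fun x _ => ?_
    rw [zero_dotProduct, add_zero, dotProduct_add, sgn_add]
  simp only [h1]
  rw [Finset.sum_comm]
  simp only [sum_sgn_dot]
  refine ⟨∑ x : V n, if F x + c = 0 then 1 else 0, ?_⟩
  rw [Finset.mul_sum]
  refine Finset.sum_congr rfl fun q _ => ?_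
  split_ifs <;> simp

/-- For plateaued functions in even dimension at least four the count is constant mod 4. -/
lemma cnt_mod_four {m : ℕ} (hm : 2 ≤ m) (F : V (2 * m) → V (2 * m)) (hF : IsPlateaued F) :
    ∃ r : ℤ, ∀ a b, (4 : ℤ) ∣ cnt F a b - r := by
  have hA : ∀ v : V (2 * m), ∃ mu w : ℤ,
      (∀ u, walsh F u v ^ 3 = 2 ^ (2 * m) * mu * walsh F u v) ∧
      walsh F 0 v = 2 ^ m * w ∧ (4 : ℤ) ∣ mu - w ^ 2 := by
    intro v
    obtain ⟨lam, h⟩ := hF v
    exact amplitude F v lam h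
  choose mu w hcube hw hmod using hA
  have hpos : (2 : ℤ) ^ (2 * m) ≠ 0 := by positivity
  -- the count is the transform of `mu`
  have hcnt : ∀ a b, (cnt F a b : ℤ) = ∑ v, mu v * sgn (v ⬝ᵥ (F a + b)) := by
    intro a b
    apply mul_left_cancel₀ hpos
    rw [cnt_fourier, Finset.mul_sum]
    refine Finset.sum_congr rfl fun v _ => ?_
    have e1 := cube_inv F v a
    simp only [hcube] at e1
    have e2 : ∑ u : V (2 * m), 2 ^ (2 * m) * mu v * walsh F u v * sgn (u ⬝ᵥ a)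
        = 2 ^ (2 * m) * (2 ^ (2 * m) * mu v * sgn (v ⬝ᵥ F a)) := by
      rw [show 2 ^ (2 * m) * (2 ^ (2 * m) * mu v * sgn (v ⬝ᵥ F a))
        = 2 ^ (2 * m) * mu v * (2 ^ (2 * m) * sgn (v ⬝ᵥ F a)) by ring, ← inversion,
        Finset.mul_sum]
      refine Finset.sum_congr rfl fun u _ => by ring
    rw [e2] at e1
    have e3 := mul_left_cancel₀ hpos e1
    rw [← e3, dotProduct_add, sgn_add]; ring
  refine ⟨∑ v, w v ^ 2, fun a b => ?_⟩
  set c := F a + b
  obtain ⟨k, hk⟩ := walsh_zero_sum F c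
  obtain ⟨k0, hk0⟩ := walsh_zero_sum F 0
  simp only [hw, dotProduct_zero, sgn_zero, mul_one] at hk hk0
  obtain ⟨m', rfl⟩ := Nat.exists_eq_add_of_le hm
  have hp : (2 : ℤ) ^ (2 + m') ≠ 0 := by positivity
  have hsum : ∑ v, w v * (sgn (v ⬝ᵥ c) - 1) = 4 * (2 ^ m' * (k - k0)) := by
    apply mul_left_cancel₀ hp
    have : (2 : ℤ) ^ (2 + m') * ∑ v, w v * (sgn (v ⬝ᵥ c) - 1)
        = ∑ v, 2 ^ (2 + m') * w v * sgn (v ⬝ᵥ c) - ∑ v, 2 ^ (2 + m') * w v := by
      rw [Finset.mul_sum, ← Finset.sum_sub_distrib]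
      refine Finset.sum_congr rfl fun v _ => by ring
    rw [this, hk, hk0]; ring
  have hsplit : (cnt F a b : ℤ) - ∑ v, w v ^ 2
      = ∑ v, ((mu v - w v ^ 2) * sgn (v ⬝ᵥ c) + (w v ^ 2 - w v) * (sgn (v ⬝ᵥ c) - 1))
        + ∑ v, w v * (sgn (v ⬝ᵥ c) - 1) := by
    rw [hcnt, ← Finset.sum_sub_distrib, ← Finset.sum_add_distrib]
    refine Finset.sum_congr rfl fun v _ => by ring
  rw [hsplit, hsum]
  refine dvd_add (Finset.dvd_sum fun v _ => dvd_add ((hmod v).mul_right _) ?_) (Dvd.intro _ rfl)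
  have he : (2 : ℤ) ∣ w v ^ 2 - w v := by
    have := Int.even_mul_pred_self (w v)
    rw [show w v ^ 2 - w v = w v * (w v - 1) by ring]
    exact this.two_dvd
  have hs : (2 : ℤ) ∣ sgn (v ⬝ᵥ c) - 1 := by
    rcases sgn_cases (v ⬝ᵥ c) with h | h <;> rw [h] <;> norm_num
  exact (show (4 : ℤ) = 2 * 2 by norm_num) ▸ mul_dvd_mul he hs

end Ac53c1
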