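import Pool.Agent.MP_ac53c1_co.Count

/-! Exclude multiplicities of APN functions whose projection along one direction has
derivatives with fibres of constant size. -/

namespace Ac53c1

open Finset

/-- The second order derivative `D_a D_b Q (x)`. -/
def d2 {n : ℕ} (Q : V n → V n) (a b x : V n) : V n :=
  Q x + Q (x + a) + Q (x + b) + Q (x + a + b)

/-- For each `a ≠ 0` the number of `b` with `D_a D_b Q (x) ∈ {0, s}` does not depend on `x`. -/
def UniformMod {n : ℕ} (Q : V n → V n) (s : V n) : Prop :=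
  ∀ a : V n, a ≠ 0 → ∀ x y : V n,
    (univ.filter fun b : V n => d2 Q a b x = 0 ∨ d2 Q a b x = s).card =
      (univ.filter fun b : V n => d2 Q a b y = 0 ∨ d2 Q a b y = s).card

variable {n : ℕ}

lemma two_V : (2 : V n) = 0 := by
  funext i
  exact CharTwo.two_eq_zero

lemma z2 (t : ZMod 2) : t = 0 ∨ t = 1 := by
  revert t; decide

lemma d2_comm (F : V n → V n) (a b x : V n) : d2 F a b x = d2 F b a x := by
  simp only [d2]
  rw [add_right_comm x a b]
  abel

lemma d2_zero_left (F : V n → V n) (b x : V n) : d2 F 0 b x = 0 := by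
  simp only [d2, add_zero]
  linear_combination (F x + F (x + b)) * (two_V (n := n))

lemma d2_zero_right (F : V n → V n) (a x : V n) : d2 F a 0 x = 0 := by
  rw [d2_comm, d2_zero_left]

lemma d2_shift (F : V n → V n) (a b x : V n) : d2 F a (b + a) x = d2 F a b x := by
  simp only [d2]
  rw [show x + (b + a) = x + a + b by abel, show x + a + (b + a) = x + b + (a + a) by abel,
    add_self_V, add_zero]
  abel

lemma d2_add (F : V n → V n) (a b c x : V n) :
    d2 F a (b + c) x = d2 F a b x + d2 F a c (x + b) := by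
  simp only [d2]
  rw [show x + (b + c) = x + b + c by abel, show x + a + (b + c) = x + b + a + c by abel,
    show x + a + b = x + b + a by abel]
  linear_combination (-(F (x + b)) - F (x + b + a)) * (two_V (n := n))

/-- Solutions of `D_a D_b F (x) = c` in `b`. -/
def sol (F : V n → V n) (x a c : V n) : Finset (V n) := univ.filter fun b => d2 F a b x = c

lemma mem_sol {F : V n → V n} {x a c b : V n} : b ∈ sol F x a c ↔ d2 F a b x = c := by
  simp [sol]

lemma sol_cases {F : V n → V n} (hF : IsAPN F) (x : V n) {a : V n} (ha : a ≠ 0) (c : V n) :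
    sol F x a c = ∅ ∨ ∃ b, b ≠ b + a ∧ d2 F a b x = c ∧ sol F x a c = {b, b + a} := by
  rcases (sol F x a c).eq_empty_or_nonempty with h | ⟨b, hb⟩
  · exact Or.inl h
  · right
    have hne : b ≠ b + a := fun h => ha (by simpa using h)
    refine ⟨b, hne, mem_sol.1 hb, ?_⟩
    symm
    apply Finset.eq_of_subset_of_card_le
    · intro y hy
      simp only [Finset.mem_insert, Finset.mem_singleton] at hy
      rcases hy with rfl | rfl
      · exact hb
      · rw [mem_sol, d2_shift]; exact mem_sol.1 hb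
    · rw [Finset.card_pair hne]
      refine le_trans ?_ (hF a (c + F x + F (x + a)) ha)
      refine Finset.card_le_card_of_injOn (fun y => x + y) ?_ ?_
      · intro y hy
        have h1 := mem_sol.1 (Finset.mem_coe.1 hy)
        simp only [Finset.coe_filter, Finset.mem_univ, true_and, Set.mem_ofPred_eq]
        rw [← h1, d2, show x + y + a = x + a + y by abel]
        linear_combination (-(F x) - F (x + a)) * (two_V (n := n))
      · intro y _ z _ h
        exact add_left_cancel h

/-- Indicator that `c` is a value of `b ↦ D_a D_b F (x)`. -/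
def ind (F : V n → V n) (x a c : V n) : ℕ := if (sol F x a c).Nonempty then 1 else 0

lemma card_sol {F : V n → V n} (hF : IsAPN F) (x : V n) {a : V n} (ha : a ≠ 0) (c : V n) :
    (sol F x a c).card = 2 * ind F x a c := by
  rcases sol_cases hF x ha c with h | ⟨b, hb, -, h⟩
  · simp [ind, h]
  · rw [ind, if_pos (by rw [h]; exact Finset.insert_nonempty _ _), h, Finset.card_pair hb]

lemma sum_sol {F : V n → V n} (hF : IsAPN F) (x : V n) {a : V n} (ha : a ≠ 0) (c v : V n) :
    ∑ b ∈ sol F x a c, v ⬝ᵥ F (x + b) =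
      (ind F x a c : ZMod 2) * (v ⬝ᵥ c + v ⬝ᵥ F x + v ⬝ᵥ F (x + a)) := by
  rcases sol_cases hF x ha c with h | ⟨b, hb, hc, h⟩
  · simp [ind, h]
  · rw [ind, if_pos (by rw [h]; exact Finset.insert_nonempty _ _), h, Finset.sum_pair hb,
      ← hc, d2, show x + (b + a) = x + a + b by abel]
    simp only [dotProduct_add, Nat.cast_one, one_mul]
    have h2 : (2 : ZMod 2) = 0 := by decide
    linear_combination (-(v ⬝ᵥ F x) - v ⬝ᵥ F (x + a)) * h2

lemma ind_zero (F : V n → V n) (x a : V n) : ind F x a 0 = 1 := by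
  rw [ind, if_pos ⟨0, mem_sol.2 (d2_zero_right F a x)⟩]

lemma ind_eq_one {F : V n → V n} {x a c : V n} : ind F x a c = 1 ↔ ∃ b, d2 F a b x = c := by
  rw [ind]
  split_ifs with h
  · obtain ⟨b, hb⟩ := h
    exact ⟨fun _ => ⟨b, mem_sol.1 hb⟩, fun _ => rfl⟩
  · exact ⟨fun h0 => absurd h0 (by norm_num), fun ⟨b, hb⟩ => absurd ⟨b, mem_sol.2 hb⟩ h⟩

lemma ind_cases (F : V n → V n) (x a c : V n) : ind F x a c = 0 ∨ ind F x a c = 1 := by
  rw [ind]
  split_ifs <;> simp

lemma sum_ind {F : V n → V n} (hF : IsAPN F) (x : V n) {a : V n} (ha : a ≠ 0) :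
    2 * ∑ c, ind F x a c = 2 ^ n := by
  rw [Finset.mul_sum, ← card_V n, ← Finset.card_univ,
    Finset.card_eq_sum_card_fiberwise (f := fun b => d2 F a b x) (t := univ)
      (fun _ _ => Finset.mem_coe.2 (Finset.mem_univ _))]
  exact Finset.sum_congr rfl fun c _ => (card_sol hF x ha c).symm

lemma filter_or (F : V n → V n) {s : V n} (hs : s ≠ 0) (x a c : V n) :
    (univ.filter fun b : V n => d2 F a b x = c ∨ d2 F a b x = c + s) =
      (sol F x a c).disjUnion (sol F x a (c + s)) (by
        rw [Finset.disjoint_left]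
        intro b h1 h2
        exact hs (by simpa using (mem_sol.1 h1).symm.trans (mem_sol.1 h2))) := by
  ext b
  simp [mem_sol]

lemma ind_indep {F : V n → V n} (hF : IsAPN F) {s : V n} (hs : s ≠ 0) (hU : UniformMod F s)
    {a : V n} (ha : a ≠ 0) (x y : V n) : ind F x a s = ind F y a s := by
  have h := hU a ha x y
  have h1 := filter_or F hs x a 0
  have h2 := filter_or F hs y a 0
  simp only [zero_add] at h1 h2
  rw [h1, h2, Finset.card_disjUnion, Finset.card_disjUnion, card_sol hF x ha, card_sol hF x ha,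
    card_sol hF y ha, card_sol hF y ha, ind_zero, ind_zero] at h
  omega

lemma ind_step {F : V n → V n} (hF : IsAPN F) {s : V n} (hs : s ≠ 0) (hU : UniformMod F s)
    {a : V n} (ha : a ≠ 0) (x c : V n) (hc : ind F x a c = 1) :
    ind F x a (c + s) = ind F x a s := by
  obtain ⟨b, hb⟩ := ind_eq_one.1 hc
  rw [ind_indep hF hs hU ha x (x + b)]
  have key : ind F x a (c + s) = 1 ↔ ind F (x + b) a s = 1 := by
    rw [ind_eq_one, ind_eq_one]
    constructor
    · rintro ⟨b', hb'⟩
      refine ⟨b + b', ?_⟩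
      have := d2_add F a b (b + b') x
      rw [← add_assoc b, add_self_V, zero_add, hb, hb'] at this
      exact (add_left_cancel this).symm
    · rintro ⟨b', hb'⟩
      exact ⟨b + b', by rw [d2_add, hb, hb']⟩
  rcases ind_cases F x a (c + s) with h1 | h1 <;> rcases ind_cases F (x + b) a s with h2 | h2 <;>
    simp_all

/-- The parity of the number of values among `c`, `c + s` does not depend on `c`. -/
lemma ind_pair {F : V n → V n} (hF : IsAPN F) {s : V n} (hs : s ≠ 0) (hU : UniformMod F s)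
    {a : V n} (ha : a ≠ 0) (x c : V n) :
    (ind F x a c : ZMod 2) + ind F x a (c + s) = 1 + ind F x a s := by
  have hss : ∀ c : V n, c + s + s = c := fun c => by rw [add_assoc, add_self_V, add_zero]
  rcases ind_cases F x a s with h0 | h0
  · have hle : ∀ c ∈ (univ : Finset (V n)), ind F x a c + ind F x a (c + s) ≤ 1 := by
      intro c _
      rcases ind_cases F x a c with h1 | h1
      · rcases ind_cases F x a (c + s) with h2 | h2 <;> omega
      · have := ind_step hF hs hU ha x c h1
        omega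
    have hsum : ∑ c, (ind F x a c + ind F x a (c + s)) = ∑ _c : V n, 1 := by
      have hsh : ∑ c, ind F x a (c + s) = ∑ c, ind F x a c :=
        Equiv.sum_comp (Equiv.addRight s) (fun c => ind F x a c)
      rw [Finset.sum_add_distrib, hsh, ← two_mul, sum_ind hF x ha,
        Finset.sum_const, Finset.card_univ, card_V, smul_eq_mul, mul_one]
    have := (Finset.sum_eq_sum_iff_of_le hle).1 hsum c (Finset.mem_univ c)
    rw [h0, ← Nat.cast_add, this]
    simp
  · rw [h0]
    rcases ind_cases F x a c with h1 | h1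
    · rcases ind_cases F x a (c + s) with h2 | h2
      · rw [h1, h2]; decide
      · have := ind_step hF hs hU ha x (c + s) h2
        rw [hss] at this
        omega
    · rw [ind_step hF hs hU ha x c h1, h0, h1]
      simp

lemma cast_two_pow (hn : 1 ≤ n) : ((2 ^ n : ℕ) : ZMod 2) = 0 := by
  obtain ⟨k, rfl⟩ : ∃ k, n = k + 1 := ⟨n - 1, by omega⟩
  have h2 : (2 : ZMod 2) = 0 := by decide
  push_cast
  rw [pow_succ, h2, mul_zero]

lemma sum_one_erase (hn : 1 ≤ n) : ∑ _a ∈ (univ : Finset (V n)).erase 0, (1 : ZMod 2) = 1 := by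
  have h := Finset.add_sum_erase (univ : Finset (V n)) (fun _ => (1 : ZMod 2))
    (Finset.mem_univ 0)
  rw [Finset.sum_const (s := univ), Finset.card_univ, card_V, nsmul_eq_mul, cast_two_pow hn,
    zero_mul] at h
  have h2 : (2 : ZMod 2) = 0 := by decide
  linear_combination h - h2

/-- Double counting over the symmetric relation `D_a D_b F (x) ∈ {c, c + s}`. -/
lemma double_count (hn : 1 ≤ n) {F : V n → V n} (hF : IsAPN F) {s : V n} (hs : s ≠ 0)
    (x c : V n) (g : V n → ZMod 2) :
    ∑ a : V n, ∑ b ∈ univ.filter (fun b : V n => d2 F a b x = c ∨ d2 F a b x = c + s), g b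
      = 0 := by
  simp only [Finset.sum_filter]
  rw [Finset.sum_comm]
  refine Finset.sum_eq_zero fun b _ => ?_
  rw [← Finset.sum_filter, Finset.sum_const, nsmul_eq_mul]
  have hc : ((univ.filter fun a : V n => d2 F a b x = c ∨ d2 F a b x = c + s).card : ZMod 2)
      = 0 := by
    simp only [d2_comm F _ b x]
    by_cases hb : b = 0
    · subst hb
      simp only [d2_zero_left]
      by_cases h : (0 : V n) = c ∨ (0 : V n) = c + s
      · rw [Finset.filter_true_of_mem fun _ _ => h, Finset.card_univ, card_V, cast_two_pow hn]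
      · rw [Finset.filter_false_of_mem fun _ _ => h]
        simp
    · have h2 : (2 : ZMod 2) = 0 := by decide
      rw [filter_or F hs, Finset.card_disjUnion, card_sol hF x hb, card_sol hF x hb]
      push_cast
      rw [h2]
      ring
  rw [hc, zero_mul]

/-- The parity of the number of directions in which `c` is a value. -/
lemma count_formula (hn : 1 ≤ n) {F : V n → V n} (hF : IsAPN F) {s : V n} (hs : s ≠ 0)
    (hU : UniformMod F s) (x c v : V n) (hv : v ⬝ᵥ s = 1) :
    ∑ a ∈ univ.erase 0, (ind F x a c : ZMod 2) =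
      (if c = 0 ∨ c = s then ∑ y, v ⬝ᵥ F y else 0) +
        ∑ a ∈ univ.erase 0, (1 + ind F x a s : ZMod 2) *
          (v ⬝ᵥ c + 1 + v ⬝ᵥ F x + v ⬝ᵥ F (x + a)) := by
  have h2 : (2 : ZMod 2) = 0 := by decide
  have h := double_count hn hF hs x c (fun b => v ⬝ᵥ F (x + b))
  rw [← Finset.add_sum_erase univ _ (Finset.mem_univ (0 : V n))] at h
  have h0 : ∑ b ∈ univ.filter (fun b : V n => d2 F 0 b x = c ∨ d2 F 0 b x = c + s),
      v ⬝ᵥ F (x + b) = if c = 0 ∨ c = s then ∑ y, v ⬝ᵥ F y else 0 := by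
    simp only [d2_zero_left]
    have hiff : ((0 : V n) = c ∨ (0 : V n) = c + s) ↔ (c = 0 ∨ c = s) := by
      rw [eq_comm, eq_comm (a := (0 : V n)), add_eq_zero_V]
    by_cases hc : c = 0 ∨ c = s
    · rw [if_pos hc, Finset.filter_true_of_mem fun _ _ => hiff.2 hc]
      exact Equiv.sum_comp (Equiv.addLeft x) (fun y => v ⬝ᵥ F y)
    · rw [if_neg hc, Finset.filter_false_of_mem fun _ _ h => hc (hiff.1 h), Finset.sum_empty]
  have h1 : ∀ a ∈ (univ : Finset (V n)).erase 0,
      ∑ b ∈ univ.filter (fun b : V n => d2 F a b x = c ∨ d2 F a b x = c + s), v ⬝ᵥ F (x + b) =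
        (ind F x a c : ZMod 2) + (1 + ind F x a s : ZMod 2) *
          (v ⬝ᵥ c + 1 + v ⬝ᵥ F x + v ⬝ᵥ F (x + a)) := by
    intro a ha
    have ha0 : a ≠ 0 := (Finset.mem_erase.1 ha).1
    rw [filter_or F hs, Finset.sum_disjUnion, sum_sol hF x ha0, sum_sol hF x ha0,
      ← ind_pair hF hs hU ha0 x c, dotProduct_add, hv]
    linear_combination (-(ind F x a c : ZMod 2)) * h2
  rw [h0, Finset.sum_congr rfl h1, Finset.sum_add_distrib] at h
  linear_combination h - ((if c = 0 ∨ c = s then ∑ y, v ⬝ᵥ F y else 0) +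
    ∑ a ∈ univ.erase 0, (1 + ind F x a s : ZMod 2) *
      (v ⬝ᵥ c + 1 + v ⬝ᵥ F x + v ⬝ᵥ F (x + a))) * h2

lemma count_formula' (hn : 1 ≤ n) {F : V n → V n} (hF : IsAPN F) {s : V n} (hs : s ≠ 0)
    (hU : UniformMod F s) (x c v : V n) (hv : v ⬝ᵥ s = 1) :
    ∑ a ∈ univ.erase 0, (ind F x a c : ZMod 2) =
      1 + (if c = 0 ∨ c = s then 0 else v ⬝ᵥ ∑ y, F y) +
        (∑ a ∈ univ.erase 0, (1 + ind F x a s : ZMod 2)) * (v ⬝ᵥ c) := by
  have h2 : (2 : ZMod 2) = 0 := by decide
  have e1 := count_formula hn hF hs hU x c v hv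
  have e0 := count_formula hn hF hs hU x 0 v hv
  simp only [ind_zero, Nat.cast_one, sum_one_erase hn, true_or, if_true, dotProduct_zero,
    zero_add] at e0
  have e2 : ∑ a ∈ univ.erase 0, (1 + ind F x a s : ZMod 2) *
      (v ⬝ᵥ c + 1 + v ⬝ᵥ F x + v ⬝ᵥ F (x + a)) =
      (∑ a ∈ univ.erase 0, (1 + ind F x a s : ZMod 2)) * (v ⬝ᵥ c) +
      ∑ a ∈ univ.erase 0, (1 + ind F x a s : ZMod 2) * (1 + v ⬝ᵥ F x + v ⬝ᵥ F (x + a)) := by
    rw [Finset.sum_mul, ← Finset.sum_add_distrib]
    exact Finset.sum_congr rfl fun a _ => by ring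
  rw [e1, e2, dotProduct_sum]
  split_ifs with hc
  · linear_combination (-1 : ZMod 2) * e0
  · linear_combination (-1 : ZMod 2) * e0 - (∑ y, v ⬝ᵥ F y) * h2

lemma exists_coord {t : V n} (ht : t ≠ 0) : ∃ i, t i = 1 := by
  by_contra h
  push Not at h
  exact ht (funext fun i => (z2 (t i)).resolve_right (h i))

lemma exists_sep {s t : V n} (hs : s ≠ 0) (ht0 : t ≠ 0) (hts : t ≠ s) :
    ∃ m : V n, m ⬝ᵥ s = 0 ∧ m ⬝ᵥ t = 1 := by
  have h2 : (2 : ZMod 2) = 0 := by decide
  obtain ⟨i, hi⟩ := exists_coord hs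
  have key : ∀ u : V n, u ≠ 0 → u i = 0 → ∃ m : V n, m ⬝ᵥ s = 0 ∧ m ⬝ᵥ u = 1 := by
    intro u hu hui
    obtain ⟨j, hj⟩ := exists_coord hu
    refine ⟨Pi.single j 1 + s j • Pi.single i 1, ?_, ?_⟩
    · rw [add_dotProduct, smul_dotProduct, single_one_dotProduct, single_one_dotProduct, hi,
        smul_eq_mul]
      linear_combination (s j) * h2
    · rw [add_dotProduct, smul_dotProduct, single_one_dotProduct, single_one_dotProduct, hj,
        hui, smul_eq_mul]
      ring
  rcases z2 (t i) with h | h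
  · exact key t ht0 h
  · obtain ⟨m, h1, h3⟩ := key (t + s) (fun h => hts (add_eq_zero_V.1 h))
      (by rw [Pi.add_apply, h, hi]; decide)
    rw [dotProduct_add, h1, add_zero] at h3
    exact ⟨m, h1, h3⟩

lemma weight_even (hn : 3 ≤ n) {F : V n → V n} (hF : IsAPN F) {s : V n} (hs : s ≠ 0)
    (hU : UniformMod F s) (x : V n) :
    ∑ a ∈ univ.erase 0, (1 + ind F x a s : ZMod 2) = 0 := by
  have h2 : (2 : ZMod 2) = 0 := by decide
  refine (z2 _).resolve_right fun hN => ?_
  obtain ⟨i, hi⟩ := exists_coord hs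
  have hv : (Pi.single i 1 : V n) ⬝ᵥ s = 1 := by rw [single_one_dotProduct, hi]
  have hsub : (univ : Finset (V n)) ⊆ {0, s, ∑ y, F y, ∑ y, F y + s} := by
    intro c _
    simp only [Finset.mem_insert, Finset.mem_singleton]
    by_contra hc
    push Not at hc
    obtain ⟨c0, cs, c1, c2⟩ := hc
    obtain ⟨m, hm0, hm1⟩ := exists_sep (t := ∑ y, F y + c) hs
      (fun h => c1 (add_eq_zero_V.1 h).symm) (fun h => c2 (shift_V.1 h).symm)
    have e1 := count_formula' (by omega) hF hs hU x c _ hv
    have e2 := count_formula' (by omega) hF hs hU x c (Pi.single i 1 + m)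
      (by rw [add_dotProduct, hv, hm0, add_zero])
    rw [e1, hN, if_neg (by tauto), if_neg (by tauto), add_dotProduct, add_dotProduct] at e2
    rw [dotProduct_add] at hm1
    have : (1 : ZMod 2) = 0 := by linear_combination -hm1 - e2
    exact absurd this (by decide)
  have h1 := Finset.card_le_card hsub
  have h3 : ({0, s, ∑ y, F y, ∑ y, F y + s} : Finset (V n)).card ≤ 4 := Finset.card_le_four
  rw [Finset.card_univ, card_V] at h1
  have : 2 ^ 3 ≤ 2 ^ n := Nat.pow_le_pow_right (by norm_num) hn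
  omega

lemma total_zero (hn : 3 ≤ n) {F : V n → V n} (hF : IsAPN F) {s : V n} (hs : s ≠ 0)
    (hU : UniformMod F s) (v : V n) (hv : v ⬝ᵥ s = 1) : v ⬝ᵥ ∑ y, F y = 0 := by
  have h2 : (2 : ZMod 2) = 0 := by decide
  obtain ⟨a, ha, has⟩ : ∃ a : V n, a ≠ 0 ∧ ind F 0 a s = 1 := by
    by_contra h
    push Not at h
    have e := weight_even hn hF hs hU 0
    rw [Finset.sum_congr rfl (g := fun _ => 1) (fun a ha => by
      rw [(ind_cases F 0 a s).resolve_right (h a (Finset.mem_erase.1 ha).1)]
      simp), sum_one_erase (by omega)] at e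
    exact absurd e (by decide)
  obtain ⟨w, hw⟩ : ∃ w, w = v ⬝ᵥ F 0 + v ⬝ᵥ F (0 + a) := ⟨_, rfl⟩
  have e1 : v ⬝ᵥ ∑ y, F y = ∑ c, (ind F 0 a c : ZMod 2) * (v ⬝ᵥ c + w) := by
    rw [dotProduct_sum, ← Finset.sum_fiberwise (s := univ) (g := fun b => d2 F a b 0)]
    refine Finset.sum_congr rfl fun c _ => ?_
    have := sum_sol hF 0 ha c v
    simp only [zero_add] at this hw
    rw [hw, ← add_assoc, ← this]
    rfl
  have hst : ∀ c, ind F 0 a (c + s) = ind F 0 a c := by
    intro c
    rcases ind_cases F 0 a c with h1 | h1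
    · rcases ind_cases F 0 a (c + s) with h3 | h3
      · rw [h1, h3]
      · have := ind_step hF hs hU ha 0 (c + s) h3
        rw [add_assoc, add_self_V, add_zero] at this
        omega
    · rw [ind_step hF hs hU ha 0 c h1, has, h1]
  obtain ⟨k1, hk1⟩ : ∃ k, k = ∑ c, if v ⬝ᵥ c + w = 1 then ind F 0 a c else 0 := ⟨_, rfl⟩
  have hk0 : ∑ c, (if v ⬝ᵥ c + w = 1 then 0 else ind F 0 a c) = k1 := by
    rw [hk1, ← Equiv.sum_comp (Equiv.addRight s)]
    refine Finset.sum_congr rfl fun c _ => ?_
    simp only [Equiv.coe_addRight, hst, dotProduct_add, hv]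
    rcases z2 (v ⬝ᵥ c + w) with h | h
    · rw [if_pos (by linear_combination h), if_neg (by rw [h]; decide)]
    · rw [if_neg (fun h' => absurd (show (1 : ZMod 2) = 0 by linear_combination h' - h)
        (by decide)), if_pos h]
  have hk : ∑ c, ind F 0 a c = k1 + k1 := by
    nth_rewrite 1 [← hk0]
    rw [hk1, ← Finset.sum_add_distrib]
    refine Finset.sum_congr rfl fun c _ => ?_
    split_ifs <;> simp
  have hq := sum_ind hF 0 ha
  obtain ⟨k, rfl⟩ : ∃ k, n = k + 3 := ⟨n - 3, by omega⟩
  have hk2 : k1 = 2 * 2 ^ k := by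
    rw [hk, pow_add] at hq
    omega
  have e2 : ∑ c, (ind F 0 a c : ZMod 2) * (v ⬝ᵥ c + w) = (k1 : ZMod 2) := by
    rw [hk1]
    push_cast
    refine Finset.sum_congr rfl fun c _ => ?_
    rcases z2 (v ⬝ᵥ c + w) with h | h
    · rw [if_neg (by rw [h]; decide), h, mul_zero]
    · rw [if_pos h, h, mul_one]
  rw [e1, e2, hk2]
  push_cast
  rw [h2, zero_mul]

lemma count_odd (hn : 3 ≤ n) {F : V n → V n} (hF : IsAPN F) {s : V n} (hs : s ≠ 0)
    (hU : UniformMod F s) (x c : V n) : Odd (∑ a ∈ univ.erase 0, ind F x a c) := by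
  obtain ⟨i, hi⟩ := exists_coord hs
  have hv : (Pi.single i 1 : V n) ⬝ᵥ s = 1 := by rw [single_one_dotProduct, hi]
  have e := count_formula' (by omega) hF hs hU x c _ hv
  rw [weight_even hn hF hs hU x, total_zero hn hF hs hU _ hv, ite_self, zero_mul, add_zero,
    add_zero] at e
  rw [← ZMod.natCast_eq_one_iff_odd]
  push_cast
  exact e

lemma cnt_eq {F : V n → V n} (hF : IsAPN F) (x b : V n) (hb : b ≠ F x) :
    cnt F x b = 2 * ∑ a ∈ univ.erase 0, ind F x a (b + F x) := by
  have h1 : cnt F x b = ∑ a : V n, (sol F x a (b + F x)).card := by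
    rw [cnt, Finset.card_filter, Fintype.sum_prod_type, ← Equiv.sum_comp (Equiv.addLeft x)]
    refine Finset.sum_congr rfl fun a _ => ?_
    rw [sol, Finset.card_filter, ← Equiv.sum_comp (Equiv.addLeft x)]
    refine Finset.sum_congr rfl fun y _ => ?_
    have h2 := two_V (n := n)
    have e : x + a + (x + y) + x = x + a + y := by linear_combination x * h2
    refine if_congr ?_ rfl rfl
    change F (x + a) + F (x + y) + F (x + a + (x + y) + x) = b ↔ _
    rw [e, d2]
    refine ⟨fun h => ?_, fun h => ?_⟩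
    · linear_combination h
    · linear_combination h
  have h0 : (sol F x 0 (b + F x)).card = 0 := by
    rw [Finset.card_eq_zero, sol]
    refine Finset.filter_false_of_mem fun y _ h => hb ?_
    rw [d2_zero_left] at h
    exact add_eq_zero_V.1 h.symm
  rw [h1, ← Finset.add_sum_erase univ _ (Finset.mem_univ (0 : V n)), h0, zero_add,
    Finset.mul_sum]
  exact Finset.sum_congr rfl fun a ha => card_sol hF x (Finset.mem_erase.1 ha).1 _

lemma apn_iff {F : V n → V n} :
    IsAPN F ↔ ∀ x y z, F x + F y + F z = F (x + y + z) → x = y ∨ x = z ∨ y = z := by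
  have h2 := two_V (n := n)
  constructor
  · intro hF x y z h
    by_contra hc
    push Not at hc
    obtain ⟨h1, h3, h4⟩ := hc
    have hle := hF (x + y) (F x + F y) (fun h => h1 (add_eq_zero_V.1 h))
    have : 2 < (univ.filter fun t : V n => F t + F (t + (x + y)) = F x + F y).card := by
      rw [Finset.two_lt_card_iff]
      refine ⟨x, y, z, ?_, ?_, ?_, h1, h3, h4⟩ <;>
        simp only [Finset.mem_filter, Finset.mem_univ, true_and]
      · rw [← add_assoc, add_self_V, zero_add]
      · rw [add_comm x y, ← add_assoc, add_self_V, zero_add, add_comm]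
      · rw [show z + (x + y) = x + y + z by abel, ← h]
        linear_combination (F z) * h2
    omega
  · intro h a b ha
    by_contra hc
    push Not at hc
    obtain ⟨x, y, z, hx, hy, hz, hxy, hxz, hyz⟩ := Finset.two_lt_card_iff.1 hc
    simp only [Finset.mem_filter, Finset.mem_univ, true_and] at hx hy hz
    have key : ∀ w, F w + F (w + a) = b → x ≠ w → w = x + a := by
      intro w hw hxw
      have := h x (x + a) w (by
        rw [show x + (x + a) + w = w + a by linear_combination x * h2]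
        linear_combination hx - hw + (F w) * h2)
      rcases this with h1 | h1 | h1
      · exact absurd (by simpa using h1) ha
      · exact absurd h1 hxw
      · exact h1.symm
    exact hyz ((key y hy hxy).trans (key z hz hxz).symm)

lemma apn_of_ccz {G F : V n → V n} (hGF : CCZ G F) (hF : IsAPN F) : IsAPN G := by
  obtain ⟨A, hA⟩ := hGF
  rw [apn_iff] at hF ⊢
  intro x y z h
  have hmem : ∀ t, (A (t, G t)).2 = F (A (t, G t)).1 := by
    intro t
    rw [← mem_graph, ← hA]
    exact Finset.mem_image_of_mem _ (mem_graph.2 rfl)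
  have hinj : ∀ t u, (A (t, G t)).1 = (A (u, G u)).1 → t = u := by
    intro t u htu
    have : A (t, G t) = A (u, G u) := Prod.ext htu (by rw [hmem t, hmem u, htu])
    exact congrArg Prod.fst (A.injective this)
  have h3 := affine_three A (x, G x) (y, G y) (z, G z)
  simp only [Prod.mk_add_mk, h] at h3
  have h4 := hmem (x + y + z)
  rw [h3] at h4
  simp only [Prod.fst_add, Prod.snd_add, hmem x, hmem y, hmem z] at h4
  rcases hF _ _ _ h4 with h1 | h1 | h1
  · exact Or.inl (hinj _ _ h1)
  · exact Or.inr (Or.inl (hinj _ _ h1))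
  · exact Or.inr (Or.inr (hinj _ _ h1))

lemma uniformMod_switch {Q : V n → V n} {s : V n} (hQ : UniformMod Q s) (f : V n → ZMod 2) :
    UniformMod (fun x => Q x + f x • s) s := by
  have h2 := two_V (n := n)
  have key : ∀ a b x, (d2 (fun x => Q x + f x • s) a b x = 0 ∨
      d2 (fun x => Q x + f x • s) a b x = s) ↔ (d2 Q a b x = 0 ∨ d2 Q a b x = s) := by
    intro a b x
    have e : d2 (fun x => Q x + f x • s) a b x =
        d2 Q a b x + (f x + f (x + a) + f (x + b) + f (x + a + b)) • s := by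
      simp only [d2, add_smul]
      abel
    rw [e]
    rcases z2 (f x + f (x + a) + f (x + b) + f (x + a + b)) with h | h <;> rw [h]
    · simp
    · rw [one_smul, add_eq_zero_V, add_eq_right, or_comm]
  intro a ha x y
  simp only [key]
  exact hQ a ha x y

/-- A quadratic function (all derivatives affine) satisfies the hypothesis for every `s`. -/
lemma uniformMod_of_quadratic {Q : V n → V n}
    (hQ : ∀ a, ∃ A : V n →ᵃ[ZMod 2] V n, ∀ x, Q x + Q (x + a) = A x) (s : V n) :
    UniformMod Q s := by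
  intro a _ x y
  obtain ⟨A, hA⟩ := hQ a
  have key : ∀ b t, d2 Q a b t = A.linear b := by
    intro b t
    have h1 := A.map_vadd t b
    rw [vadd_eq_add, vadd_eq_add, ← hA, ← hA] at h1
    rw [d2, show t + a + b = b + t + a by abel, add_comm t b]
    linear_combination h1 + (Q t + Q (t + a)) * (two_V (n := n))
  simp only [key]

theorem main_switch (hn : 3 ≤ n) (Q F : V n → V n) (s : V n) (hs : s ≠ 0) (f : V n → ZMod 2)
    (hQ : UniformMod Q s) (hF : IsAPN F) (hGF : CCZ (fun x => Q x + f x • s) F)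
    (p : V n × V n) (hp : p ∉ graph F) : Odd (mult (graph F) p) := by
  have hG := apn_of_ccz hGF hF
  have hU := uniformMod_switch hQ f
  obtain ⟨G, hGdef⟩ : ∃ G : V n → V n, G = fun x => Q x + f x • s := ⟨_, rfl⟩
  rw [← hGdef] at hG hU hGF
  obtain ⟨A, hA⟩ := hGF
  obtain ⟨⟨x, b⟩, rfl⟩ := A.surjective p
  have hb : b ≠ G x := fun h => hp (by
    rw [← hA]
    exact Finset.mem_image_of_mem _ (mem_graph.2 h))
  have h6 := ord_eq_six _ _ hp
  rw [← hA, ord_image, ord_graph, hA, cnt_eq hG x b hb] at h6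
  have ho := count_odd hn hG hs hU x (b + G x)
  rw [Nat.odd_iff] at ho ⊢
  omega

end Ac53c1
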